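import Pool.Agent.W601.RP.Stm2

set_option autoImplicit false
open scoped Classical

namespace Pool.Agent.W274.RP

open Finset Pool.Agent.W601.RP

theorem pre_length (q : ℕ → ℕ) (n : ℕ) : (pre q n).length = n := by
  unfold pre
  rw [List.length_map, List.length_range]

theorem pre_getD (q : ℕ → ℕ) (n i : ℕ) (hi : i < n) : (pre q n).getD i 0 = q i := by
  unfold pre
  rw [List.getD_eq_getElem?_getD, List.getElem?_map, List.getElem?_range hi]
  rfl

theorem pre_inj (F : Finset (ℕ → ℕ)) : ∃ n0 : ℕ, ∀ n, n0 ≤ n → ∀ q ∈ F, ∀ q' ∈ F,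
    pre q n = pre q' n → q = q' := by
  have h : ∀ z : (ℕ → ℕ) × (ℕ → ℕ), ∃ i, z.1 ≠ z.2 → z.1 i ≠ z.2 i := by
    intro z
    by_cases hz : z.1 = z.2
    · exact ⟨0, fun h => absurd hz h⟩
    · obtain ⟨i, hi⟩ := Function.ne_iff.1 hz
      exact ⟨i, fun _ => hi⟩
  choose d hd using h
  refine ⟨∑ z ∈ F ×ˢ F, (d z + 1), fun n hn q hq q' hq' he => ?_⟩
  by_contra hne
  have h1 := hd (q, q') hne
  have h2 : d (q, q') + 1 ≤ ∑ z ∈ F ×ˢ F, (d z + 1) :=
    single_le_sum (f := fun z => d z + 1) (fun z _ => Nat.zero_le _) (mem_product.2 ⟨hq, hq'⟩)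
  have h3 : d (q, q') < n := by omega
  apply h1
  change q (d (q, q')) = q' (d (q, q'))
  rw [← pre_getD q n _ h3, he, pre_getD q' n _ h3]

theorem half_norm (c : ℤ) (hc : c ≠ 0) :
    ‖c • (((1 / (2 * (c.natAbs : ℝ))) : ℝ) : TT)‖ = 1 / 2 := by
  have hc' : (c : ℝ) ≠ 0 := by exact_mod_cast hc
  have hh : ‖(((1 / 2 : ℝ)) : TT)‖ = 1 / 2 := by
    have := AddCircle.norm_half_period_eq (p := (1 : ℝ))
    simpa using this
  have e1 : c • (((1 / (2 * (c.natAbs : ℝ))) : ℝ) : TT) =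
      ((((c : ℝ) * (1 / (2 * (c.natAbs : ℝ)))) : ℝ) : TT) := by
    rw [← AddCircle.coe_zsmul, zsmul_eq_mul]
  rw [e1, Nat.cast_natAbs]
  rcases le_or_gt 0 c with h | h
  · have h2 : ((|c| : ℤ) : ℝ) = c := by rw [abs_of_nonneg h]
    rw [h2]
    have h3 : (c : ℝ) * (1 / (2 * (c : ℝ))) = 1 / 2 := by field_simp
    rw [h3, hh]
  · have h2 : ((|c| : ℤ) : ℝ) = -c := by rw [abs_of_neg h]; push_cast; rfl
    rw [h2]
    have h3 : (c : ℝ) * (1 / (2 * (-(c : ℝ)))) = -(1 / 2) := by field_simp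
    rw [h3, AddCircle.coe_neg, norm_neg, hh]

theorem mkl : S_MKL := by
  intro F c q1 hF hq1
  obtain ⟨n1, hn1⟩ := pre_inj F
  refine ⟨n1 + (c q1).natAbs + F.card + 1, fun n hn => ?_⟩
  have hinj := hn1 n (by omega)
  have hc := (hF q1 hq1).2
  have hs : sL (mkL F c q1 n) = pre q1 n := rfl
  have hnL : nL (mkL F c q1 n) = n := by
    unfold nL
    rw [hs, pre_length]
  have hmem : ∀ s ∈ (mkL F c q1 n).2, ∃ q ∈ F, s = pre q n := by
    intro s hs
    unfold mkL at hs
    simp only [List.mem_cons, List.mem_map, Finset.mem_toList] at hs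
    rcases hs with rfl | ⟨q, hq, rfl⟩
    · exact ⟨q1, hq1, rfl⟩
    · exact ⟨q, mem_of_mem_erase hq, rfl⟩
  have hmem' : ∀ q ∈ F, pre q n ∈ (mkL F c q1 n).2 := by
    intro q hq
    unfold mkL
    simp only [List.mem_cons, List.mem_map, Finset.mem_toList]
    by_cases h : q = q1
    · left; rw [h]
    · right; exact ⟨q, mem_erase.2 ⟨h, hq⟩, rfl⟩
  refine ⟨⟨?_, ?_, ?_, ?_, ?_, ?_, ?_⟩, hnL, hs, ?_⟩
  · change 1 ≤ (c q1).natAbs
    have : (c q1).natAbs ≠ 0 := Int.natAbs_ne_zero.2 hc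
    omega
  · rw [hnL]
    change (c q1).natAbs ≤ n
    omega
  · unfold mkL
    exact List.cons_ne_nil _ _
  · rw [hnL]
    unfold mkL
    simp only [List.length_cons, List.length_map, Finset.length_toList]
    have := card_erase_le (s := F) (a := q1)
    omega
  · unfold mkL
    simp only [List.nodup_cons]
    constructor
    · intro h
      rw [List.mem_map] at h
      obtain ⟨q, hq, he⟩ := h
      rw [Finset.mem_toList, mem_erase] at hq
      exact hq.1 (hinj q hq.2 q1 hq1 he)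
    · refine List.Nodup.map_on ?_ (Finset.nodup_toList _)
      intro q hq q' hq' he
      rw [Finset.mem_toList] at hq hq'
      exact hinj q (mem_of_mem_erase hq) q' (mem_of_mem_erase hq') he
  · intro s hs
    obtain ⟨q, hq, rfl⟩ := hmem s hs
    rw [pre_length, hnL]
  · intro s hs i hi
    obtain ⟨q, hq, rfl⟩ := hmem s hs
    rw [hnL] at hi
    rw [pre_getD q n i hi]
    exact (hF q hq).1.1 i
  · intro t ht hlt
    rw [Finset.sum_apply, sum_eq_single q1]
    · rw [Pi.smul_apply]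
      have e1 : x q1 t = (((1 / (2 * ((c q1).natAbs : ℝ))) : ℝ) : TT) := by
        unfold x
        rw [hlt, hnL, if_pos ⟨ht, hmem' q1 hq1⟩, if_pos hs.symm]
        rfl
      rw [e1, half_norm _ hc]
    · intro q hq hne
      rw [Pi.smul_apply]
      have e1 : x q t = 0 := by
        unfold x
        rw [hlt, hnL, if_pos ⟨ht, hmem' q hq⟩, if_neg]
        rw [hs]
        intro h
        exact hne (hinj q hq q1 hq1 h)
      rw [e1, smul_zero]
    · intro h
      exact absurd hq1 h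

end Pool.Agent.W274.RP
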